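import Pool.Agent.R237.NH.Main

/-!
# Weak numerical hypercyclicity of operators without eigenvalues

Let `X` be a reflexive complex Banach space and `T` a bounded operator on `X` which is not power
bounded and has no eigenvalues. Then `T` is weakly numerically hypercyclic. This is the positive
answer to Q1.

Idea of the proof. Suppose that no numerical orbit `f (T ^ n x)` is dense. By Baire's theorem there
are an open set of pairs `(x, f)` and `δ > 0` with `|f (T ^ n x)| ≥ δ ‖T ^ n‖` as soon as `‖T ^ n‖`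
is large. Let `ρ ≥ 1` be the spectral radius. Normalizing the orbit at almost maximal indices of
`‖T ^ n‖ ρ ^ (-n)` gives weak limits `w k` with `f (T ^ k (w k)) = 1`, whose `T`-orbits grow at
most like `ρ ^ n` and stay in a cone around `x`. The dichotomy, applied to the restriction of `T` to
the closure `E` of the space of all vectors whose orbit is `O (ρ ^ n)`, shows that `ρ⁻¹ T` is power
bounded on `E`. A second weak limit, of `ρ ^ k w k`, is a vector `z` of `E` for which
`|f ((ρ⁻¹ T) ^ n z)|` is bounded below. For a power bounded operator on a reflexive space this forces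
an eigenvector (a Jacobs-de Leeuw-Glicksberg type argument, done here with an invariant mean and a
positive operator of finite trace).
-/

set_option autoImplicit false

open Filter Topology

namespace Pool.Agent.Results.MP_14d743_an.ReflexiveWeaklyNumHypercyclic

universe u

/-- `S` is numerically hypercyclic: for some pair with `‖y‖ = ‖g‖ = g y = 1` the numerical orbit
`{g (S ^ n y)}` is dense in `ℂ`. -/
def NumericallyHypercyclic {Y : Type u} [NormedAddCommGroup Y] [NormedSpace ℂ Y]
    (S : Y →L[ℂ] Y) : Prop :=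
  ∃ (y : Y) (g : StrongDual ℂ Y), ‖y‖ = 1 ∧ ‖g‖ = 1 ∧ g y = 1 ∧
    Dense (Set.range fun n : ℕ => g ((S ^ n) y))

/-- `T` is weakly numerically hypercyclic: it is similar to a numerically hypercyclic operator on a
Banach space. -/
def WeaklyNumericallyHypercyclic {X : Type u} [NormedAddCommGroup X] [NormedSpace ℂ X]
    (T : X →L[ℂ] X) : Prop :=
  ∃ (Y : Type u) (_ : NormedAddCommGroup Y) (_ : NormedSpace ℂ Y) (_ : CompleteSpace Y)
    (J : X ≃L[ℂ] Y) (S : Y →L[ℂ] Y), (∀ x : X, J.symm (S (J x)) = T x) ∧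
      NumericallyHypercyclic S

/-- The renorming argument. -/
theorem weakly_of_dense {X : Type u} [NormedAddCommGroup X] [NormedSpace ℂ X] [CompleteSpace X]
    (T : X →L[ℂ] X) (x₀ : X) (f₀ : StrongDual ℂ X)
    (hd : Dense (Set.range fun n : ℕ => f₀ ((T ^ n) x₀))) : WeaklyNumericallyHypercyclic T := by
  -- a nonzero value
  obtain ⟨_, h1, k, rfl⟩ := hd.inter_open_nonempty {z : ℂ | z ≠ 0} isOpen_ne ⟨1, one_ne_zero⟩
  have ha : f₀ ((T ^ k) x₀) ≠ 0 := h1
  set a : ℂ := f₀ ((T ^ k) x₀) with hadef
  set x : X := (T ^ k) x₀ with hx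
  set f : StrongDual ℂ X := a⁻¹ • f₀ with hf
  have hfx : f x = 1 := by
    rw [hf, smul_apply, smul_eq_mul]
    exact inv_mul_cancel₀ ha
  have hd1 : Dense (Set.range fun n : ℕ => f₀ ((T ^ n) x)) := by
    have h2 : Dense ((Set.range fun n : ℕ => f₀ ((T ^ n) x₀)) \
        ((fun n : ℕ => f₀ ((T ^ n) x₀)) '' Set.Iio k)) :=
      hd.diff_finite ((Set.finite_Iio k).image _)
    refine h2.mono ?_
    rintro _ ⟨⟨n, rfl⟩, hn⟩
    have h3 : k ≤ n := by
      by_contra hlt
      push Not at hlt
      exact hn ⟨n, hlt, rfl⟩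
    refine ⟨n - k, ?_⟩
    change f₀ ((T ^ (n - k)) ((T ^ k) x₀)) = f₀ ((T ^ n) x₀)
    have h4 : T ^ n = T ^ (n - k) * T ^ k := by rw [← pow_add, Nat.sub_add_cancel h3]
    rw [h4]
    rfl
  have hd2 : Dense (Set.range fun n : ℕ => f ((T ^ n) x)) := by
    have h5 : Function.Surjective fun z : ℂ => a⁻¹ * z := fun z => ⟨a * z, by field_simp⟩
    have h6 := h5.denseRange.dense_image (by fun_prop) hd1
    refine h6.mono ?_
    rintro _ ⟨_, ⟨n, rfl⟩, rfl⟩
    exact ⟨n, rfl⟩
  -- the new space
  let p : X →L[ℂ] X := ContinuousLinearMap.id ℂ X - f.smulRight x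
  have hp : ∀ y, p y = y - f y • x := fun y => rfl
  have hpk : ∀ y, p y ∈ LinearMap.ker f.toLinearMap := by
    intro y
    rw [LinearMap.mem_ker]
    change f (p y) = 0
    rw [hp, map_sub, map_smul, hfx, smul_eq_mul, mul_one, sub_self]
  let F : X →L[ℂ] ℂ × LinearMap.ker f.toLinearMap :=
    f.prod (p.codRestrict (LinearMap.ker f.toLinearMap) hpk)
  let G : ℂ × LinearMap.ker f.toLinearMap →L[ℂ] X :=
    ((ContinuousLinearMap.id ℂ ℂ).smulRight x).coprod (LinearMap.ker f.toLinearMap).subtypeL
  have hF : ∀ y, F y = (f y, ⟨p y, hpk y⟩) := fun y => rfl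
  have hG : ∀ c z, G (c, z) = c • x + (z : X) := fun c z => rfl
  let J : X ≃L[ℂ] ℂ × LinearMap.ker f.toLinearMap :=
    ContinuousLinearEquiv.equivOfInverse F G
      (fun y => by rw [hF, hG]; change f y • x + p y = y; rw [hp]; abel)
      (fun ⟨c, z⟩ => by
        have hz : f (z : X) = 0 := z.2
        have h7 : f (c • x + (z : X)) = c := by
          rw [map_add, map_smul, hfx, hz, smul_eq_mul, mul_one, add_zero]
        rw [hG, hF]
        refine Prod.ext h7 (Subtype.ext ?_)
        change p (c • x + (z : X)) = z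
        rw [hp, h7]
        abel)
  have hJx : J x = ((1 : ℂ), (0 : LinearMap.ker f.toLinearMap)) := by
    change F x = _
    rw [hF]
    refine Prod.ext hfx (Subtype.ext ?_)
    change p x = 0
    rw [hp, hfx, one_smul, sub_self]
  have hcl : IsClosed (LinearMap.ker f.toLinearMap : Set X) := f.isClosed_ker
  haveI : CompleteSpace (LinearMap.ker f.toLinearMap) := hcl.completeSpace_coe
  let S : ℂ × LinearMap.ker f.toLinearMap →L[ℂ] ℂ × LinearMap.ker f.toLinearMap :=
    (J : X →L[ℂ] ℂ × LinearMap.ker f.toLinearMap) ∘L T ∘L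
      (J.symm : ℂ × LinearMap.ker f.toLinearMap →L[ℂ] X)
  have hS : ∀ y, S y = J (T (J.symm y)) := fun y => rfl
  have hSn : ∀ (n : ℕ) (y : X), (S ^ n) (J y) = J ((T ^ n) y) := by
    intro n
    induction n with
    | zero => intro y; rfl
    | succ n ih =>
      intro y
      rw [pow_succ, pow_succ]
      change (S ^ n) (S (J y)) = J ((T ^ n) (T y))
      rw [hS, J.symm_apply_apply, ih]
  refine ⟨ℂ × LinearMap.ker f.toLinearMap, inferInstance, inferInstance, inferInstance, J, S,
    fun y => by rw [hS, J.symm_apply_apply, J.symm_apply_apply],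
    ((1 : ℂ), (0 : LinearMap.ker f.toLinearMap)),
    ContinuousLinearMap.fst ℂ ℂ (LinearMap.ker f.toLinearMap), ?_, ?_, rfl, ?_⟩
  · rw [Prod.norm_def]
    simp
  · refine le_antisymm (ContinuousLinearMap.norm_fst_le ..) ?_
    have h8 := (ContinuousLinearMap.fst ℂ ℂ (LinearMap.ker f.toLinearMap)).le_opNorm
      ((1 : ℂ), (0 : LinearMap.ker f.toLinearMap))
    rw [Prod.norm_def] at h8
    simpa using h8
  · have h9 : (fun n : ℕ => (ContinuousLinearMap.fst ℂ ℂ (LinearMap.ker f.toLinearMap))
        ((S ^ n) ((1 : ℂ), (0 : LinearMap.ker f.toLinearMap)))) =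
        fun n : ℕ => f ((T ^ n) x) := by
      funext n
      rw [← hJx, hSn]
      rfl
    rw [h9]
    exact hd2

/-- **Positive answer to Q1.** Let `X` be a reflexive complex Banach space (the canonical map into
the bidual is onto) and let `T` be a bounded operator on `X` which is not power bounded and has no
eigenvalues. Then `T` is weakly numerically hypercyclic; equivalently there are `x` and `f` such
that the numerical orbit `{f (T ^ n x)}` is dense in `ℂ`. -/
theorem result {X : Type u} [NormedAddCommGroup X] [NormedSpace ℂ X] [CompleteSpace X]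
    (hrefl : Function.Surjective (NormedSpace.inclusionInDoubleDual ℂ X))
    (T : X →L[ℂ] X)
    (hpb : ¬ ∃ C : ℝ, ∀ n : ℕ, ‖T ^ n‖ ≤ C)
    (hev : ∀ μ : ℂ, ¬ Module.End.HasEigenvalue (T : Module.End ℂ X) μ) :
    WeaklyNumericallyHypercyclic T ∧
      ∃ (x : X) (f : StrongDual ℂ X), Dense (Set.range fun n : ℕ => f ((T ^ n) x)) := by
  have h1 : ∃ (x : X) (f : StrongDual ℂ X), Dense (Set.range fun n : ℕ => f ((T ^ n) x)) := by
    refine Pool.Agent.R237.NH.dense_orbit hrefl T hpb fun μ v hv => ?_
    by_contra hv0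
    exact hev μ (Module.End.hasEigenvalue_of_hasEigenvector
      (Module.End.hasEigenvector_iff.2 ⟨Module.End.mem_eigenspace_iff.2 hv, hv0⟩))
  obtain ⟨x, f, hd⟩ := h1
  exact ⟨weakly_of_dense T x f hd, x, f, hd⟩

end Pool.Agent.Results.MP_14d743_an.ReflexiveWeaklyNumHypercyclic
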